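import Pool.Agent.Q78.SV.Core

/-!
# Disjoint caps
-/

namespace Q78.SV

open Module Complex Finset

variable {V : Type*} [NormedAddCommGroup V] [InnerProductSpace ℂ V] [FiniteDimensional ℂ V] {n : ℕ}

theorem sphere_preconnected : IsPreconnected (Metric.sphere (0 : ℂ) 1) :=
  isPreconnected_sphere (by rw [rank_real_complex]; norm_num) 0 1

theorem isClosed_cap (φ : ℂ →ₗ[ℝ] ℝ) (c : ℝ) : IsClosed {z : ℂ | c ≤ φ z} :=
  isClosed_le continuous_const (φ.continuous_of_finiteDimensional)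

/-- Either some point of the circle avoids all the pairwise disjoint caps, or one cap contains the
whole circle. -/
theorem exists_omega {ι : Type*} [Fintype ι] (φ : ι → (ℂ →ₗ[ℝ] ℝ)) (c : ι → ℝ)
    (hdisj : ∀ i j, i ≠ j → ∀ z : ℂ, ‖z‖ ≤ 1 → c i ≤ φ i z → c j ≤ φ j z → False) :
    (∃ ω : ℂ, ‖ω‖ = 1 ∧ ∀ i, φ i ω < c i) ∨ (∃ i, ∀ z : ℂ, ‖z‖ = 1 → c i ≤ φ i z) := by
  classical
  by_contra hcon
  push Not at hcon
  obtain ⟨h1, h2⟩ := hcon
  obtain ⟨i, hi⟩ := h1 1 (by simp)
  have hcl2 : IsClosed (⋃ j ∈ {j : ι | j ≠ i}, {z : ℂ | c j ≤ φ j z}) :=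
    (Set.toFinite _).isClosed_biUnion fun j _ => isClosed_cap (φ j) (c j)
  have hpre := isPreconnected_iff_subset_of_disjoint_closed.1 sphere_preconnected
    {z : ℂ | c i ≤ φ i z} (⋃ j ∈ {j : ι | j ≠ i}, {z : ℂ | c j ≤ φ j z}) (isClosed_cap _ _) hcl2 ?_ ?_
  · rcases hpre with h | h
    · obtain ⟨z, hz1, hz2⟩ := h2 i
      have : z ∈ {z : ℂ | c i ≤ φ i z} := h (by simpa using hz1)
      exact absurd this (not_le.2 hz2)
    · have : (1 : ℂ) ∈ (⋃ j ∈ {j : ι | j ≠ i}, {z : ℂ | c j ≤ φ j z}) := h (by simp)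
      simp only [Set.mem_iUnion, Set.mem_setOf_eq, exists_prop] at this
      obtain ⟨j, hj, hj2⟩ := this
      exact hdisj j i hj 1 (by simp) hj2 hi
  · intro z hz
    have hz1 : ‖z‖ = 1 := by simpa using hz
    obtain ⟨j, hj⟩ := h1 z hz1
    by_cases hji : j = i
    · left; subst hji; exact hj
    · right
      simp only [Set.mem_iUnion, Set.mem_setOf_eq, exists_prop]
      exact ⟨j, hji, hj⟩
  · ext z
    simp only [Set.mem_inter_iff, Set.mem_iUnion, Set.mem_setOf_eq, exists_prop,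
      Set.mem_empty_iff_false, iff_false, not_and, not_exists]
    intro hz hzi j hj hzj
    have hz1 : ‖z‖ ≤ 1 := by
      have : ‖z‖ = 1 := by simpa using hz
      exact this.le
    exact hdisj j i hj z hz1 hzj hzi

/-- The dimensions of subspaces belonging to pairwise disjoint caps add up to at most `n`. -/
theorem sum_finrank_le {ι : Type*} [Fintype ι] (hn : finrank ℂ V = n) {T : V →ₗ[ℂ] V}
    (hT : ∀ v, v ≠ 0 → ‖T v‖ < ‖v‖) (φ : ι → (ℂ →ₗ[ℝ] ℝ)) (c : ι → ℝ) (W : ι → Submodule ℂ V)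
    (hdisj : ∀ i j, i ≠ j → ∀ z : ℂ, ‖z‖ ≤ 1 → c i ≤ φ i z → c j ≤ φ j z → False)
    (hW : ∀ i, ∀ y ∈ W i, c i * ‖y‖ ^ 2 ≤ φ i (inner ℂ y (T y))) :
    ∑ i, finrank ℂ (W i) ≤ n := by
  classical
  rcases exists_omega φ c hdisj with ⟨ω, hω, hωc⟩ | ⟨i, hi⟩
  · obtain ⟨u, hu1, hu2⟩ := caps hn hT hω
    have h1 : ∀ i, finrank ℂ (W i) ≤ (univ.filter fun k => c i ≤ φ i (u k)).card :=
      fun i => hu2 (φ i) (c i) (W i) (hωc i) (hW i)
    refine (Finset.sum_le_sum fun i _ => h1 i).trans ?_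
    rw [← Finset.card_biUnion]
    · exact (Finset.card_le_univ _).trans (by simp)
    · intro i _ j _ hij
      rw [Function.onFun, Finset.disjoint_left]
      intro k hk1 hk2
      rw [Finset.mem_filter] at hk1 hk2
      exact hdisj i j hij (u k) (hu1 k).le hk1.2 hk2.2
  · -- one cap contains the whole disc
    have hci : c i ≤ 0 := by
      have h1 := hi 1 (by simp)
      have h2 := hi (-1) (by simp)
      rw [map_neg] at h2
      linarith
    have hdisc : ∀ z : ℂ, ‖z‖ ≤ 1 → c i ≤ φ i z := by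
      intro z hz
      rcases eq_or_ne z 0 with rfl | hz0
      · rw [map_zero]; exact hci
      · have hn0 : 0 < ‖z‖ := norm_pos_iff.2 hz0
        have h1 : ‖((‖z‖⁻¹ : ℝ) : ℂ) * z‖ = 1 := by
          rw [norm_mul, Complex.norm_real, Real.norm_eq_abs, abs_of_pos (inv_pos.2 hn0)]
          exact inv_mul_cancel₀ hn0.ne'
        have h2 := hi _ h1
        rw [← Complex.real_smul, map_smul, smul_eq_mul] at h2
        have h3 : c i * ‖z‖ ≤ φ i z := by
          have := mul_le_mul_of_nonneg_right h2 hn0.le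
          have h4 : ‖z‖⁻¹ * φ i z * ‖z‖ = φ i z := by field_simp
          rwa [h4] at this
        nlinarith
    have hbot : ∀ j, j ≠ i → W j = ⊥ := by
      intro j hj
      rw [Submodule.eq_bot_iff]
      intro y hy
      by_contra hy0
      have hn0 : 0 < ‖y‖ := norm_pos_iff.2 hy0
      set z : ℂ := (((‖y‖ ^ 2)⁻¹ : ℝ) : ℂ) * inner ℂ y (T y) with hz
      have hz1 : ‖z‖ ≤ 1 := by
        rw [hz, norm_mul, Complex.norm_real, Real.norm_eq_abs,
          abs_of_pos (inv_pos.2 (by positivity))]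
        have h1 := norm_inner_le_norm (𝕜 := ℂ) y (T y)
        have h2 := hT y hy0
        rw [inv_mul_le_iff₀ (by positivity), mul_one]
        refine h1.trans ?_
        nlinarith
      have hz2 : c j ≤ φ j z := by
        rw [hz, ← Complex.real_smul, map_smul, smul_eq_mul]
        have h1 := hW j y hy
        rw [inv_mul_eq_div, le_div_iff₀ (by positivity)]
        exact h1
      exact hdisj j i hj z hz1 hz2 (hdisc z hz1)
    have : ∑ j, finrank ℂ (W j) = finrank ℂ (W i) := by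
      rw [Finset.sum_eq_single i]
      · intro j _ hj
        rw [hbot j hj, finrank_bot]
      · intro h; exact absurd (mem_univ i) h
    rw [this, ← hn]
    exact Submodule.finrank_le _

end Q78.SV
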