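import Mathlib

/-!
# Strict contractions and disjoint caps of the unit disc

For a strict contraction `T` of an `n`-dimensional space and a point `ω` of the unit circle there are
`n` points `u k` of the unit circle such that every half-plane not containing `ω` contains at least as
many of the `u k` as the dimension of any subspace on which the numerical range of `T` lies in the
half-plane. Hence the dimensions of such subspaces for pairwise disjoint caps add up to at most `n`.
-/

namespace Q78.SV

open Module Complex Finset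

variable {V : Type*} [NormedAddCommGroup V] [InnerProductSpace ℂ V] [FiniteDimensional ℂ V] {n : ℕ}

/-- Simultaneous diagonalisation of a positive definite and a symmetric form. -/
theorem exists_simul (hn : finrank ℂ V = n) {C S : V →ₗ[ℂ] V} (hC : C.IsSymmetric)
    (hS : S.IsSymmetric) (hpos : ∀ v, v ≠ 0 → 0 < (inner ℂ v (C v)).re) :
    ∃ (g : Basis (Fin n) ℂ V) (lam : Fin n → ℝ),
      (∀ j k, inner ℂ (g j) (C (g k)) = if j = k then 1 else 0) ∧
      ∀ k, S (g k) = (lam k : ℂ) • C (g k) := by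
  classical
  set e := hC.eigenvectorBasis hn with he
  set c := hC.eigenvalues hn with hc
  have hCe : ∀ j, C (e j) = (c j : ℂ) • e j := fun j => hC.apply_eigenvectorBasis hn j
  have hcpos : ∀ j, 0 < c j := by
    intro j
    have h1 := hpos (e j) (by
      intro h
      have := e.orthonormal.1 j
      rw [h, norm_zero] at this
      exact zero_ne_one this)
    rw [hCe, inner_smul_right, inner_self_eq_norm_sq_to_K, e.orthonormal.1 j] at h1
    simpa using h1
  set rr : Fin n → ℝ := fun j => (Real.sqrt (c j))⁻¹ with hrr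
  have hrc : ∀ j, rr j * (c j * rr j) = 1 := by
    intro j
    have h1 : Real.sqrt (c j) * Real.sqrt (c j) = c j := Real.mul_self_sqrt (hcpos j).le
    have h2 : Real.sqrt (c j) ≠ 0 := (Real.sqrt_pos.2 (hcpos j)).ne'
    simp only [hrr]
    field_simp
    nlinarith
  -- the operator D
  set D : V →ₗ[ℂ] V := e.toBasis.constr ℂ (fun j => (rr j : ℂ) • e j) with hD
  have hDe : ∀ j, D (e j) = (rr j : ℂ) • e j := by
    intro j
    have := e.toBasis.constr_basis ℂ (fun j => (rr j : ℂ) • e j) j
    rw [e.coe_toBasis] at this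
    exact this
  have hDv : ∀ v, D v = ∑ j, (inner ℂ (e j) v * (rr j : ℂ)) • e j := by
    intro v
    conv_lhs => rw [← e.sum_repr' v]
    rw [map_sum]
    refine Finset.sum_congr rfl fun j _ => ?_
    rw [map_smul, hDe, smul_smul]
  have hDsymm : D.IsSymmetric := by
    intro x y
    rw [hDv x, hDv y, sum_inner, inner_sum]
    refine Finset.sum_congr rfl fun j _ => ?_
    rw [inner_smul_left, inner_smul_right, map_mul, inner_conj_symm, Complex.conj_ofReal]
    ring
  have hDCD : ∀ v, D (C (D v)) = v := by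
    have : D ∘ₗ C ∘ₗ D = LinearMap.id := by
      refine e.toBasis.ext fun j => ?_
      rw [e.coe_toBasis]
      simp only [LinearMap.comp_apply, LinearMap.id_apply]
      rw [hDe, map_smul, hCe, map_smul, map_smul, hDe, smul_smul, smul_smul]
      have h1 := hrc j
      have h2 : (rr j : ℂ) * ((c j : ℂ) * (rr j : ℂ)) = 1 := by exact_mod_cast h1
      rw [mul_assoc, h2, one_smul]
    intro v
    have := congrArg (fun f : V →ₗ[ℂ] V => f v) this
    simpa using this
  have hDinj : Function.Injective D := by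
    intro x y hxy
    rw [← hDCD x, ← hDCD y, hxy]
  set De : V ≃ₗ[ℂ] V := LinearEquiv.ofInjectiveEndo D hDinj with hDe'
  have hDe_apply : ∀ v, De v = D v := fun v => rfl
  -- the transported form
  set S' : V →ₗ[ℂ] V := D ∘ₗ S ∘ₗ D with hS'
  have hS'symm : S'.IsSymmetric := by
    intro x y
    simp only [hS', LinearMap.comp_apply]
    rw [hDsymm, hS, hDsymm]
  set f := hS'symm.eigenvectorBasis hn with hf
  set lam := hS'symm.eigenvalues hn with hlam
  refine ⟨f.toBasis.map De, lam, ?_, ?_⟩
  · intro j k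
    simp only [Basis.map_apply, OrthonormalBasis.coe_toBasis, hDe_apply]
    rw [hDsymm, hDCD]
    exact orthonormal_iff_ite.1 f.orthonormal j k
  · intro k
    simp only [Basis.map_apply, OrthonormalBasis.coe_toBasis, hDe_apply]
    apply hDinj
    rw [map_smul, hDCD]
    exact hS'symm.apply_eigenvectorBasis hn k

/-- The main counting lemma. -/
theorem caps (hn : finrank ℂ V = n) {T : V →ₗ[ℂ] V} (hT : ∀ v, v ≠ 0 → ‖T v‖ < ‖v‖) {ω : ℂ}
    (hω : ‖ω‖ = 1) :
    ∃ u : Fin n → ℂ, (∀ k, ‖u k‖ = 1) ∧ ∀ (φ : ℂ →ₗ[ℝ] ℝ) (c : ℝ) (W : Submodule ℂ V), φ ω < c →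
      (∀ y ∈ W, c * ‖y‖ ^ 2 ≤ φ (inner ℂ y (T y))) →
      finrank ℂ W ≤ (univ.filter fun k => c ≤ φ (u k)).card := by
  classical
  set L : V →ₗ[ℂ] V := LinearMap.id - (starRingEnd ℂ ω) • T with hL
  have hLv : ∀ v, L v = v - (starRingEnd ℂ ω) • T v := fun v => rfl
  set Ls := LinearMap.adjoint L with hLs
  set C : V →ₗ[ℂ] V := (1 / 2 : ℂ) • (L + Ls) with hCdef
  set S : V →ₗ[ℂ] V := (-I / 2 : ℂ) • (Ls - L) with hSdef
  have hCsymm : C.IsSymmetric := by
    intro x y
    simp only [hCdef, LinearMap.smul_apply, LinearMap.add_apply, inner_smul_left,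
      inner_smul_right, inner_add_left, inner_add_right, hLs, LinearMap.adjoint_inner_left,
      LinearMap.adjoint_inner_right]
    have : (starRingEnd ℂ) (1 / 2 : ℂ) = 1 / 2 := by
      rw [map_div₀, map_one, map_ofNat]
    rw [this]
    ring
  have hSsymm : S.IsSymmetric := by
    intro x y
    simp only [hSdef, LinearMap.smul_apply, LinearMap.sub_apply, inner_smul_left,
      inner_smul_right, inner_sub_left, inner_sub_right, hLs, LinearMap.adjoint_inner_left,
      LinearMap.adjoint_inner_right]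
    have : (starRingEnd ℂ) (-I / 2 : ℂ) = I / 2 := by
      rw [map_div₀, map_neg, conj_I, neg_neg, map_ofNat]
    rw [this]
    ring
  have hLCS : ∀ v, L v = C v - I • S v := by
    intro v
    simp only [hCdef, hSdef, LinearMap.smul_apply, LinearMap.add_apply, LinearMap.sub_apply]
    rw [smul_smul]
    have : I * (-I / 2) = 1 / 2 := by
      have := I_mul_I
      linear_combination (-1 / 2 : ℂ) * this
    rw [this, ← smul_sub]
    have h2 : L v + Ls v - (Ls v - L v) = (2 : ℂ) • L v := by
      rw [two_smul]; abel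
    rw [h2, smul_smul]
    norm_num
  have hωn : ∀ v, ‖(starRingEnd ℂ ω) • T v‖ = ‖T v‖ := by
    intro v
    rw [norm_smul, RCLike.norm_conj, hω, one_mul]
  have hTle : ∀ v, ‖T v‖ ≤ ‖v‖ := by
    intro v
    rcases eq_or_ne v 0 with rfl | h
    · simp
    · exact (hT v h).le
  have hreL : ∀ v, (inner ℂ v (L v)).re = ‖v‖ ^ 2 - (inner ℂ v ((starRingEnd ℂ ω) • T v)).re := by
    intro v
    rw [hLv, inner_sub_right, sub_re, inner_self_eq_norm_sq_to_K]
    norm_cast
  have hinnS : ∀ v, (inner ℂ v (S v)).im = 0 := by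
    intro v
    have h1 := hSsymm v v
    have h2 : starRingEnd ℂ (inner ℂ v (S v)) = inner ℂ v (S v) := by
      rw [inner_conj_symm]; exact h1
    exact Complex.conj_eq_iff_im.1 h2
  have hreCL : ∀ v, (inner ℂ v (C v)).re = (inner ℂ v (L v)).re := by
    intro v
    rw [hLCS, inner_sub_right, inner_smul_right, sub_re, mul_re, I_re, I_im, hinnS]
    ring
  have hpos : ∀ v, v ≠ 0 → 0 < (inner ℂ v (C v)).re := by
    intro v hv
    rw [hreCL, hreL]
    have h1 : (inner ℂ v ((starRingEnd ℂ ω) • T v)).re ≤ ‖v‖ * ‖T v‖ := by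
      have := (Complex.re_le_norm _).trans (norm_inner_le_norm v ((starRingEnd ℂ ω) • T v))
      rwa [hωn] at this
    have h2 := hT v hv
    have h3 : 0 < ‖v‖ := norm_pos_iff.2 hv
    nlinarith
  have hLsq : ∀ z, ‖L z‖ ^ 2 ≤ 2 * (inner ℂ z (L z)).re := by
    intro z
    have h1 : ‖L z‖ ^ 2 = ‖z‖ ^ 2 - 2 * (inner ℂ z ((starRingEnd ℂ ω) • T z)).re + ‖T z‖ ^ 2 := by
      rw [hLv, @norm_sub_sq ℂ, hωn]
      rfl
    rw [h1, hreL]
    have h2 := hTle z
    have h3 := norm_nonneg (T z)
    nlinarith
  obtain ⟨g, lam, hg1, hg2⟩ := exists_simul hn hCsymm hSsymm hpos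
  have hinner : ∀ a b : Fin n → ℂ, inner ℂ (∑ k, a k • g k) (C (∑ k, b k • g k))
      = ∑ k, (starRingEnd ℂ (a k)) * b k := by
    intro a b
    rw [map_sum, sum_inner]
    refine Finset.sum_congr rfl fun j _ => ?_
    rw [inner_sum, Finset.sum_eq_single j]
    · rw [map_smul, inner_smul_left, inner_smul_right, hg1, if_pos rfl, mul_one]
    · intro k _ hk
      rw [map_smul, inner_smul_left, inner_smul_right, hg1, if_neg (Ne.symm hk)]
      simp
    · simp
  have hSsum : ∀ b : Fin n → ℂ, S (∑ k, b k • g k) = C (∑ k, ((lam k : ℂ) * b k) • g k) := by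
    intro b
    rw [map_sum, map_sum]
    refine Finset.sum_congr rfl fun k _ => ?_
    rw [map_smul, hg2, map_smul, smul_smul, mul_comm]
  -- the points
  set u : Fin n → ℂ := fun k =>
    (((lam k ^ 2 - 1) / (1 + lam k ^ 2) : ℝ) : ℂ) * ω +
      ((2 * lam k / (1 + lam k ^ 2) : ℝ) : ℂ) * (I * ω) with hu
  have hpos1 : ∀ k, 0 < 1 + lam k ^ 2 := fun k => by positivity
  refine ⟨u, ?_, ?_⟩
  · intro k
    have h1 : u k = ((((lam k ^ 2 - 1) / (1 + lam k ^ 2) : ℝ) : ℂ) +
        ((2 * lam k / (1 + lam k ^ 2) : ℝ) : ℂ) * I) * ω := by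
      simp only [hu]; ring
    rw [h1, norm_mul, hω, mul_one, Complex.norm_add_mul_I]
    have h2 : ((lam k ^ 2 - 1) / (1 + lam k ^ 2)) ^ 2 + (2 * lam k / (1 + lam k ^ 2)) ^ 2 = 1 := by
      have := (hpos1 k).ne'
      field_simp
      ring
    rw [h2, Real.sqrt_one]
  · intro φ c W hφ hW
    by_contra hlt
    rw [not_le] at hlt
    set K := univ.filter fun k => c ≤ φ (u k) with hK
    -- a nonzero vector of W with vanishing coordinates in K
    let F : W →ₗ[ℂ] (K → ℂ) :=
      LinearMap.pi fun k => (g.coord k.1) ∘ₗ W.subtype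
    have hker : LinearMap.ker F ≠ ⊥ := by
      apply LinearMap.ker_ne_bot_of_finrank_lt
      rw [Module.finrank_pi, Fintype.card_coe]
      exact hlt
    obtain ⟨y, hyk, hy0⟩ := Submodule.exists_mem_ne_zero_of_ne_bot hker
    have hyK : ∀ k ∈ K, g.repr (y : V) k = 0 := by
      intro k hk
      have h1 : F y = 0 := hyk
      have h2 := congrFun h1 ⟨k, hk⟩
      simpa [F] using h2
    set v : V := (y : V) with hv
    have hv0 : v ≠ 0 := by
      intro h
      exact hy0 (Subtype.ext h)
    set a : Fin n → ℂ := fun k => g.repr v k with ha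
    have hva : v = ∑ k, a k • g k := (g.sum_repr v).symm
    -- quantities
    set P : ℝ := ∑ k, ‖a k‖ ^ 2 with hP
    set Q : ℝ := ∑ k, lam k * ‖a k‖ ^ 2 with hQ
    set R : ℝ := ∑ k, (1 + lam k ^ 2) * ‖a k‖ ^ 2 with hR
    have hcc : ∀ z : ℂ, (starRingEnd ℂ z) * z = ((‖z‖ ^ 2 : ℝ) : ℂ) := by
      intro z
      rw [mul_comm, Complex.mul_conj, Complex.normSq_eq_norm_sq]
    have hCv : inner ℂ v (C v) = (P : ℂ) := by
      rw [hva, hinner, hP, Complex.ofReal_sum]
      exact Finset.sum_congr rfl fun k _ => hcc _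
    have hSv : inner ℂ v (S v) = (Q : ℂ) := by
      rw [hva, hSsum, hinner, hQ, Complex.ofReal_sum]
      refine Finset.sum_congr rfl fun k _ => ?_
      rw [Complex.ofReal_mul, ← hcc]
      ring
    -- norm bound
    have hRv : R ≤ 2 * ‖v‖ ^ 2 := by
      set z : V := ∑ k, ((1 + (lam k : ℂ) * I) * a k) • g k with hz
      have hLz : L z = C (∑ k, (((1 + lam k ^ 2 : ℝ) : ℂ) * a k) • g k) := by
        rw [hLCS, hz, hSsum, ← map_smul, ← map_sub]
        congr 1
        rw [Finset.smul_sum, ← Finset.sum_sub_distrib]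
        refine Finset.sum_congr rfl fun k _ => ?_
        rw [smul_smul, ← sub_smul]
        congr 1
        push_cast
        linear_combination (-(lam k : ℂ) ^ 2 * a k) * I_mul_I
      have h1 : inner ℂ v (L z) = (R : ℂ) := by
        rw [hLz, hva, hinner, hR, Complex.ofReal_sum]
        refine Finset.sum_congr rfl fun k _ => ?_
        rw [Complex.ofReal_mul, ← hcc]
        ring
      have h2 : inner ℂ z (C z) = (R : ℂ) := by
        rw [hz, hinner, hR, Complex.ofReal_sum]
        refine Finset.sum_congr rfl fun k _ => ?_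
        rw [Complex.ofReal_mul, ← hcc, map_mul, map_add, map_one, map_mul, conj_I,
          Complex.conj_ofReal]
        push_cast
        linear_combination (-(lam k : ℂ) ^ 2 * (starRingEnd ℂ (a k)) * a k) * I_mul_I
      have h3 : (inner ℂ z (L z)).re = R := by
        rw [← hreCL, h2, Complex.ofReal_re]
      have h4 := hLsq z
      rw [h3] at h4
      have h5 : R ≤ ‖v‖ * ‖L z‖ := by
        have := (Complex.re_le_norm _).trans (norm_inner_le_norm v (L z))
        rwa [h1, Complex.ofReal_re] at this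
      have h6 : 0 ≤ R := by
        rw [hR]; exact Finset.sum_nonneg fun k _ => by positivity
      rcases h6.eq_or_lt with h7 | h7
      · rw [← h7]; positivity
      · have h8 : R * R ≤ (‖v‖ * ‖L z‖) * (‖v‖ * ‖L z‖) := mul_self_le_mul_self h6 h5
        have h9 : (‖v‖ * ‖L z‖) * (‖v‖ * ‖L z‖) = ‖v‖ ^ 2 * ‖L z‖ ^ 2 := by ring
        rw [h9] at h8
        have h10 : ‖v‖ ^ 2 * ‖L z‖ ^ 2 ≤ ‖v‖ ^ 2 * (2 * R) :=
          mul_le_mul_of_nonneg_left h4 (by positivity)
        have h11 : R * R ≤ (2 * ‖v‖ ^ 2) * R := by linarith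
        exact le_of_mul_le_mul_right h11 h7
    -- the numerical range value
    have hval : inner ℂ v (T v) = ((‖v‖ ^ 2 - P : ℝ) : ℂ) * ω + ((Q : ℝ) : ℂ) * (I * ω) := by
      have h1 : (starRingEnd ℂ ω) * inner ℂ v (T v) = ((‖v‖ ^ 2 - P : ℝ) : ℂ) + (Q : ℂ) * I := by
        have h2 : (starRingEnd ℂ ω) • T v = v - L v := by rw [hLv]; abel
        have hvv : inner ℂ v v = ((‖v‖ ^ 2 : ℝ) : ℂ) := by
          rw [inner_self_eq_norm_sq_to_K]; norm_cast
        rw [← inner_smul_right, h2, inner_sub_right, hLCS, inner_sub_right, inner_smul_right, hCv,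
          hSv, hvv, Complex.ofReal_sub]
        ring
      have h3 : ω * (starRingEnd ℂ ω) = 1 := by
        rw [Complex.mul_conj, Complex.normSq_eq_norm_sq, hω]; norm_num
      calc inner ℂ v (T v) = (ω * (starRingEnd ℂ ω)) * inner ℂ v (T v) := by rw [h3, one_mul]
        _ = ω * ((starRingEnd ℂ ω) * inner ℂ v (T v)) := by ring
        _ = _ := by rw [h1]; ring
    have hφlin : ∀ x y : ℝ, φ ((x : ℂ) * ω + (y : ℂ) * (I * ω)) = x * φ ω + y * φ (I * ω) := by
      intro x y
      rw [map_add, ← Complex.real_smul, ← Complex.real_smul, map_smul, map_smul, smul_eq_mul,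
        smul_eq_mul]
    have hW' := hW v y.2
    rw [hval, hφlin] at hW'
    set α := φ ω with hα
    set β := φ (I * ω) with hβ
    have hsum : 0 ≤ ∑ k, (β * lam k - α - (c - α) * (1 + lam k ^ 2) / 2) * ‖a k‖ ^ 2 := by
      have h1 : ∑ k, (β * lam k - α - (c - α) * (1 + lam k ^ 2) / 2) * ‖a k‖ ^ 2
          = β * Q - α * P - (c - α) / 2 * R := by
        rw [hP, hQ, hR, Finset.mul_sum, Finset.mul_sum, Finset.mul_sum, ← Finset.sum_sub_distrib,
          ← Finset.sum_sub_distrib]
        refine Finset.sum_congr rfl fun k _ => ?_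
        ring
      rw [h1]
      have h2 : 0 < c - α := sub_pos.2 hφ
      nlinarith
    have hterm : ∀ k ∈ (univ : Finset (Fin n)),
        (β * lam k - α - (c - α) * (1 + lam k ^ 2) / 2) * ‖a k‖ ^ 2 ≤ 0 := by
      intro k _
      by_cases hk : k ∈ K
      · have : a k = 0 := hyK k hk
        rw [this]; simp
      · have h1 : φ (u k) < c := by
          rw [hK, mem_filter] at hk
          push Not at hk
          exact hk (mem_univ k)
        have h2 : φ (u k) = (lam k ^ 2 - 1) / (1 + lam k ^ 2) * α +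
            2 * lam k / (1 + lam k ^ 2) * β := by
          simp only [hu]; exact hφlin _ _
        have h3 := hpos1 k
        rw [h2, div_mul_eq_mul_div, div_mul_eq_mul_div, ← add_div, div_lt_iff₀ h3] at h1
        have h4 : β * lam k - α - (c - α) * (1 + lam k ^ 2) / 2 ≤ 0 := by linarith
        exact mul_nonpos_of_nonpos_of_nonneg h4 (by positivity)
    have hzero := (Finset.sum_eq_zero_iff_of_nonpos hterm).1 (le_antisymm
      (Finset.sum_nonpos hterm) hsum)
    apply hv0
    rw [hva]
    refine Finset.sum_eq_zero fun k _ => ?_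
    by_cases hk : k ∈ K
    · have : a k = 0 := hyK k hk
      rw [this, zero_smul]
    · have h1 : φ (u k) < c := by
        rw [hK, mem_filter] at hk
        push Not at hk
        exact hk (mem_univ k)
      have h2 : φ (u k) = (lam k ^ 2 - 1) / (1 + lam k ^ 2) * α +
          2 * lam k / (1 + lam k ^ 2) * β := by
        simp only [hu]; exact hφlin _ _
      have h3 := hpos1 k
      rw [h2, div_mul_eq_mul_div, div_mul_eq_mul_div, ← add_div, div_lt_iff₀ h3] at h1
      have h4 : β * lam k - α - (c - α) * (1 + lam k ^ 2) / 2 < 0 := by linarith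
      have h5 := hzero k (mem_univ k)
      rcases mul_eq_zero.1 h5 with h6 | h6
      · exact absurd h6 h4.ne
      · have : a k = 0 := by simpa using h6
        rw [this, zero_smul]

end Q78.SV
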