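import Pool.Agent.Q78.SV.Match

/-!
# Normal matrices with spectra on two lines
-/

namespace Q78.SV

open Matrix Polynomial
open scoped Matrix.Norms.L2Operator

variable {n : ℕ}

theorem exists_perm {α d : Fin n → ℂ}
    (h : ∏ i, (X - C (α i)) = ∏ i, (X - C (d i))) :
    ∃ τ : Equiv.Perm (Fin n), ∀ i, d (τ i) = α i := by
  classical
  have h1 : (Finset.univ.val.map α) = (Finset.univ.val.map d) := by
    have h2 := congrArg Polynomial.roots h
    have h3 : ∀ β : Fin n → ℂ, (∏ i, (X - C (β i))).roots = Finset.univ.val.map β := by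
      intro β
      have := Polynomial.roots_multiset_prod_X_sub_C (Finset.univ.val.map β)
      rw [Multiset.map_map] at this
      exact this
    rwa [h3, h3] at h2
  have hcard : ∀ c : ℂ, Fintype.card {i // α i = c} = Fintype.card {i // d i = c} := by
    intro c
    have h2 := congrArg (Multiset.count c) h1
    rw [Multiset.count_map, Multiset.count_map] at h2
    rw [Fintype.card_subtype, Fintype.card_subtype]
    have h3 : ∀ β : Fin n → ℂ, (Finset.univ.filter fun i => β i = c).card
        = (Multiset.filter (fun i => c = β i) Finset.univ.val).card := by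
      intro β
      rw [Finset.card_def, Finset.filter_val]
      congr 1
      exact Multiset.filter_congr fun i _ => eq_comm
    rw [h3, h3]
    exact h2
  refine ⟨Equiv.ofFiberEquiv (f := α) (g := d) fun c => Fintype.equivOfCardEq (hcard c),
    fun i => Equiv.ofFiberEquiv_map _ i⟩

theorem exists_hermitian {A : Matrix (Fin n) (Fin n) ℂ} (hA : IsStarNormal A) {c₀ u : ℂ}
    (hu : u ≠ 0) (hσ : ∀ z ∈ spectrum ℂ A, ∃ t : ℝ, z = c₀ + t * u) :
    ∃ H : Matrix (Fin n) (Fin n) ℂ, H.IsHermitian ∧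
      A = algebraMap ℂ (Matrix (Fin n) (Fin n) ℂ) c₀ + u • H := by
  set H : Matrix (Fin n) (Fin n) ℂ := u⁻¹ • (A - algebraMap ℂ _ c₀) with hH
  have hAH : A = algebraMap ℂ (Matrix (Fin n) (Fin n) ℂ) c₀ + u • H := by
    rw [hH, smul_smul, mul_inv_cancel₀ hu, one_smul]
    abel
  have hnorm : IsStarNormal H := by
    rw [isStarNormal_iff, hH, star_smul]
    refine Commute.smul_left (Commute.smul_right ?_ _) _
    rw [star_sub]
    refine Commute.sub_left (Commute.sub_right hA.star_comm_self ?_) (Commute.sub_right ?_ ?_)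
    · exact (Algebra.commute_algebraMap_left _ _).symm
    · have : star (algebraMap ℂ (Matrix (Fin n) (Fin n) ℂ) c₀) = algebraMap ℂ _ (star c₀) :=
        (algebraMap_star_comm c₀).symm
      rw [this]
      exact Algebra.commute_algebraMap_left _ _
    · exact (Algebra.commute_algebraMap_left _ _).symm
  have hreal : SpectrumRestricts H Complex.reCLM := by
    rw [SpectrumRestricts.real_iff]
    intro z hz
    have h1 : c₀ + u * z ∈ spectrum ℂ A := by
      rw [spectrum.mem_iff] at hz ⊢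
      intro hunit
      apply hz
      have h2 : algebraMap ℂ (Matrix (Fin n) (Fin n) ℂ) (c₀ + u * z) - A
          = u • (algebraMap ℂ (Matrix (Fin n) (Fin n) ℂ) z - H) := by
        rw [hAH, map_add, map_mul, smul_sub, Algebra.smul_def u (algebraMap ℂ _ z)]
        abel
      rw [h2] at hunit
      have h3 := hunit.smul (Units.mk0 u hu)⁻¹
      have h4 : (Units.mk0 u hu)⁻¹ • u • (algebraMap ℂ (Matrix (Fin n) (Fin n) ℂ) z - H)
          = algebraMap ℂ (Matrix (Fin n) (Fin n) ℂ) z - H := by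
        rw [Units.smul_def, smul_smul]
        simp [hu]
      rwa [h4] at h3
    obtain ⟨t, ht⟩ := hσ _ h1
    have h2 : z = t := by
      have : u * z = u * t := by linear_combination ht
      exact mul_left_cancel₀ hu this
    rw [h2]; simp
  have hsa : IsSelfAdjoint H := by
    have := hnorm
    exact QuasispectrumRestricts.isSelfAdjoint H hreal
  exact ⟨H, hsa, hAH⟩

theorem charpoly_line {H : Matrix (Fin n) (Fin n) ℂ} (hH : H.IsHermitian) (c₀ u : ℂ) :
    (algebraMap ℂ (Matrix (Fin n) (Fin n) ℂ) c₀ + u • H).charpoly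
      = ∏ i, (X - C (c₀ + u * (hH.eigenvalues i : ℂ))) := by
  have h1 : algebraMap ℂ (Matrix (Fin n) (Fin n) ℂ) c₀ + u • H
      = Unitary.conjStarAlgAut ℂ _ hH.eigenvectorUnitary
        (diagonal fun i => c₀ + u * (hH.eigenvalues i : ℂ)) := by
    have h2 : (diagonal fun i => c₀ + u * (hH.eigenvalues i : ℂ))
        = algebraMap ℂ (Matrix (Fin n) (Fin n) ℂ) c₀
          + u • diagonal (fun i => (hH.eigenvalues i : ℂ)) := by
      ext i j
      rw [Matrix.add_apply, Matrix.smul_apply, Matrix.algebraMap_matrix_apply, diagonal_apply,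
        diagonal_apply]
      by_cases hij : i = j
      · simp [hij]
      · simp [hij]
    rw [h2, map_add, map_smul, AlgHomClass.commutes]
    congr 2
    have h3 := hH.spectral_theorem
    exact h3
  rw [h1, Unitary.conjStarAlgAut_apply, charpoly_mul_comm, ← mul_assoc]
  simp [charpoly_diagonal]

theorem Dl_ne_zero {u w : ℂ} (huw : LinearIndependent ℝ ![u, w]) : Dl u w ≠ 0 := by
  intro hD
  rw [LinearIndependent.pair_iff] at huw
  unfold Dl at hD
  -- conj w * u is real
  set r := ((starRingEnd ℂ) w * u).re with hr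
  have h1 : (starRingEnd ℂ) w * u = (r : ℂ) := by
    apply Complex.ext
    · simp [hr]
    · simpa using hD
  have h2 : (Complex.normSq w) • u + (-r) • w = 0 := by
    rw [Complex.real_smul, Complex.real_smul, ← Complex.mul_conj]
    push_cast
    linear_combination w * h1
  obtain ⟨h3, -⟩ := huw _ _ h2
  have h4 : w = 0 := Complex.normSq_eq_zero.1 h3
  obtain ⟨-, h5⟩ := huw 0 1 (by rw [h4]; simp)
  exact one_ne_zero h5

/-- The matching theorem for normal matrices with spectra on two lines that are not parallel. -/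
theorem main {A B : Matrix (Fin n) (Fin n) ℂ} (hA : IsStarNormal A) (hB : IsStarNormal B)
    {a u b w : ℂ} (huw : LinearIndependent ℝ ![u, w])
    (hσA : ∀ z ∈ spectrum ℂ A, ∃ t : ℝ, z = a + t * u)
    (hσB : ∀ z ∈ spectrum ℂ B, ∃ t : ℝ, z = b + t * w) {α β : Fin n → ℂ}
    (hα : A.charpoly = ∏ i, (X - C (α i))) (hβ : B.charpoly = ∏ i, (X - C (β i))) :
    ∃ σ : Equiv.Perm (Fin n), ∀ i, ‖α i - β (σ i)‖ ≤ ‖A - B‖ := by
  have hD := Dl_ne_zero huw
  have hu : u ≠ 0 := by
    rintro rfl
    unfold Dl at hD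
    simp at hD
  have hw : w ≠ 0 := by
    rintro rfl
    unfold Dl at hD
    simp at hD
  -- the intersection point
  set t₀ := phx u w (b - a) with ht₀
  set s₀ := phy u w (b - a) with hs₀
  have hts := ph_decomp hD (b - a)
  rw [← ht₀, ← hs₀] at hts
  set c₀ : ℂ := a + t₀ * u with hc₀
  have hc₀' : c₀ = b + s₀ * w := by
    rw [hc₀]; linear_combination hts
  obtain ⟨H, hH, hAH⟩ := exists_hermitian hA (c₀ := c₀) hu (by
    intro z hz
    obtain ⟨t, ht⟩ := hσA z hz
    refine ⟨t - t₀, ?_⟩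
    rw [ht, hc₀]; push_cast; ring)
  obtain ⟨K, hK, hBK⟩ := exists_hermitian hB (c₀ := c₀) hw (by
    intro z hz
    obtain ⟨t, ht⟩ := hσB z hz
    refine ⟨t - s₀, ?_⟩
    rw [ht, hc₀']; push_cast; ring)
  have hAB : A - B = u • H - w • K := by
    rw [hAH, hBK]; abel
  have h1 := charpoly_line hH c₀ u
  have h2 := charpoly_line hK c₀ w
  rw [← hAH, hα] at h1
  rw [← hBK, hβ] at h2
  obtain ⟨τ, hτ⟩ := exists_perm h1
  obtain ⟨ρ, hρ⟩ := exists_perm h2
  have heig : ∀ {M : Matrix (Fin n) (Fin n) ℂ} (hM : M.IsHermitian) (i : Fin n),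
      toEuclideanLin M (hM.eigenvectorBasis i)
        = (hM.eigenvalues i : ℂ) • hM.eigenvectorBasis i := by
    intro M hM i
    have h3 := hM.mulVec_eigenvectorBasis i
    apply (WithLp.ofLp_injective 2)
    rw [Matrix.ofLp_toEuclideanLin_apply, h3]
    rfl
  obtain ⟨σ, hσ⟩ := matching (V := EuclideanSpace ℂ (Fin n)) (by simp) hH.eigenvectorBasis
    hK.eigenvectorBasis (heig hH) (heig hK) hD (norm_nonneg (A - B)) (by
      intro v
      have h3 : (u • toEuclideanLin H - w • toEuclideanLin K) v = toEuclideanLin (A - B) v := by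
        rw [hAB, map_sub, map_smul, map_smul]
      rw [h3]
      exact Matrix.l2_opNorm_mulVec (A - B) v)
  refine ⟨(τ.trans σ).trans ρ.symm, fun i => ?_⟩
  have h4 := hσ (τ i)
  have h5 : α i = c₀ + u * (hH.eigenvalues (τ i) : ℂ) := (hτ i).symm
  have h6 : β ((((τ.trans σ).trans ρ.symm)) i) = c₀ + w * (hK.eigenvalues (σ (τ i)) : ℂ) := by
    rw [← hρ]
    simp
  rw [h5, h6]
  have h7 : c₀ + u * (hH.eigenvalues (τ i) : ℂ) - (c₀ + w * (hK.eigenvalues (σ (τ i)) : ℂ))
      = u * (hH.eigenvalues (τ i) : ℂ) - w * (hK.eigenvalues (σ (τ i)) : ℂ) := by ring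
  rw [h7]
  exact h4

/-- the spectral distance of two lists of eigenvalues -/
noncomputable def specDist (α β : Fin n → ℂ) : ℝ :=
  ⨅ σ : Equiv.Perm (Fin n), ⨆ k, ‖α k - β (σ k)‖

theorem specDist_le {A B : Matrix (Fin n) (Fin n) ℂ} (hA : IsStarNormal A) (hB : IsStarNormal B)
    {a u b w : ℂ} (huw : LinearIndependent ℝ ![u, w])
    (hσA : ∀ z ∈ spectrum ℂ A, ∃ t : ℝ, z = a + t * u)
    (hσB : ∀ z ∈ spectrum ℂ B, ∃ t : ℝ, z = b + t * w) {α β : Fin n → ℂ}
    (hα : A.charpoly = ∏ i, (X - C (α i))) (hβ : B.charpoly = ∏ i, (X - C (β i))) :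
    specDist α β ≤ ‖toEuclideanCLM (𝕜 := ℂ) (A - B)‖ := by
  obtain ⟨σ, hσ⟩ := main hA hB huw hσA hσB hα hβ
  refine (ciInf_le (Set.finite_range _).bddBelow σ).trans ?_
  exact Real.iSup_le hσ (norm_nonneg _)

end Q78.SV
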