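import Pool.Agent.Q78.SV.Caps

/-!
# Matching the eigenvalues of two operators with spectra on two lines
-/

namespace Q78.SV

open Module Complex Finset

variable {V : Type*} [NormedAddCommGroup V] [InnerProductSpace ℂ V] [FiniteDimensional ℂ V] {n : ℕ}

section quad

variable (e : OrthonormalBasis (Fin n) ℂ V) {H : V →ₗ[ℂ] V} {h : Fin n → ℝ}

theorem inner_quad (heH : ∀ i, H (e i) = (h i : ℂ) • e i) (y : V) :
    inner ℂ y (H y) = ((∑ i, h i * ‖inner ℂ (e i) y‖ ^ 2 : ℝ) : ℂ) := by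
  have h1 : H y = ∑ i, (inner ℂ (e i) y * (h i : ℂ)) • e i := by
    conv_lhs => rw [← e.sum_repr' y]
    rw [map_sum]
    exact Finset.sum_congr rfl fun i _ => by rw [map_smul, heH, smul_smul]
  rw [h1, inner_sum, Complex.ofReal_sum]
  refine Finset.sum_congr rfl fun i _ => ?_
  rw [inner_smul_right, ← inner_conj_symm y (e i), Complex.ofReal_mul,
    ← Complex.normSq_eq_norm_sq, ← Complex.mul_conj]
  ring

theorem norm_quad (y : V) : ‖y‖ ^ 2 = ∑ i, ‖inner ℂ (e i) y‖ ^ 2 := by
  rw [← e.sum_sq_norm_inner_right y]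

/-- the coordinate subspace of a set of indices -/
noncomputable def spanOf (G : Finset (Fin n)) : Submodule ℂ V :=
  Submodule.span ℂ (Set.range fun i : G => e i)

theorem finrank_spanOf (G : Finset (Fin n)) : finrank ℂ (spanOf e G) = G.card := by
  unfold spanOf
  rw [finrank_span_eq_card, Fintype.card_coe]
  exact e.orthonormal.linearIndependent.comp _ Subtype.val_injective

theorem inner_spanOf {G : Finset (Fin n)} {y : V} (hy : y ∈ spanOf e G) {i : Fin n} (hi : i ∉ G) :
    inner ℂ (e i) y = 0 := by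
  unfold spanOf at hy
  induction hy using Submodule.span_induction with
  | mem x hx =>
    obtain ⟨j, rfl⟩ := hx
    exact e.orthonormal.2 fun hij => hi (hij ▸ j.2)
  | zero => exact inner_zero_right _
  | add x z _ _ h1 h2 => rw [inner_add_right, h1, h2, add_zero]
  | smul a x _ h1 => rw [inner_smul_right, h1, mul_zero]

theorem quad_ge (heH : ∀ i, H (e i) = (h i : ℂ) • e i) {G : Finset (Fin n)} {t : ℝ}
    (ht : ∀ i ∈ G, t ≤ h i) {y : V} (hy : y ∈ spanOf e G) :
    t * ‖y‖ ^ 2 ≤ (inner ℂ y (H y)).re := by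
  rw [inner_quad e heH, Complex.ofReal_re, norm_quad e, Finset.mul_sum]
  refine Finset.sum_le_sum fun i _ => ?_
  by_cases hi : i ∈ G
  · exact mul_le_mul_of_nonneg_right (ht i hi) (by positivity)
  · rw [inner_spanOf e hy hi]; simp

theorem quad_le (heH : ∀ i, H (e i) = (h i : ℂ) • e i) {G : Finset (Fin n)} {t : ℝ}
    (ht : ∀ i ∈ G, h i ≤ t) {y : V} (hy : y ∈ spanOf e G) :
    (inner ℂ y (H y)).re ≤ t * ‖y‖ ^ 2 := by
  rw [inner_quad e heH, Complex.ofReal_re, norm_quad e, Finset.mul_sum]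
  refine Finset.sum_le_sum fun i _ => ?_
  by_cases hi : i ∈ G
  · exact mul_le_mul_of_nonneg_right (ht i hi) (by positivity)
  · rw [inner_spanOf e hy hi]; simp

end quad

/-! ### coordinates in the plane -/

section coord

/-- the determinant of the pair `(u, w)` -/
noncomputable def Dl (u w : ℂ) : ℝ := ((starRingEnd ℂ w) * u).im

/-- first coordinate of `z` in `z = u * x - w * y` -/
noncomputable def phx (u w : ℂ) : ℂ →ₗ[ℝ] ℝ :=
  (Dl u w)⁻¹ • (Complex.imLm ∘ₗ LinearMap.mulLeft ℝ (starRingEnd ℂ w))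

/-- second coordinate of `z` in `z = u * x - w * y` -/
noncomputable def phy (u w : ℂ) : ℂ →ₗ[ℝ] ℝ :=
  (Dl u w)⁻¹ • (Complex.imLm ∘ₗ LinearMap.mulLeft ℝ (starRingEnd ℂ u))

theorem phx_apply (u w z : ℂ) : phx u w z = (Dl u w)⁻¹ * ((starRingEnd ℂ w) * z).im := rfl

theorem phy_apply (u w z : ℂ) : phy u w z = (Dl u w)⁻¹ * ((starRingEnd ℂ u) * z).im := rfl

variable {u w : ℂ}

theorem phx_val (hD : Dl u w ≠ 0) (x y : ℝ) : phx u w (u * x - w * y) = x := by
  rw [phx_apply]
  have : ((starRingEnd ℂ w) * (u * x - w * y)).im = x * Dl u w := by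
    unfold Dl
    simp only [mul_im, sub_im, sub_re, mul_re, conj_re, conj_im, ofReal_re, ofReal_im]
    ring
  rw [this]
  field_simp

theorem phy_val (hD : Dl u w ≠ 0) (x y : ℝ) : phy u w (u * x - w * y) = y := by
  rw [phy_apply]
  have : ((starRingEnd ℂ u) * (u * x - w * y)).im = y * Dl u w := by
    unfold Dl
    simp only [mul_im, sub_im, sub_re, mul_re, conj_re, conj_im, ofReal_re, ofReal_im]
    ring
  rw [this]
  field_simp

theorem ph_decomp (hD : Dl u w ≠ 0) (z : ℂ) :
    u * (phx u w z : ℂ) - w * (phy u w z : ℂ) = z := by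
  have h1 : (Dl u w : ℂ) ≠ 0 := by exact_mod_cast hD
  rw [phx_apply, phy_apply]
  have h2 : u * ((((starRingEnd ℂ w) * z).im : ℝ) : ℂ) - w * ((((starRingEnd ℂ u) * z).im : ℝ) : ℂ)
      = (Dl u w : ℂ) * z := by
    unfold Dl
    apply Complex.ext
    · simp only [mul_im, sub_re, mul_re, conj_re, conj_im, ofReal_re, ofReal_im]
      ring
    · simp only [mul_im, sub_im, mul_re, conj_re, conj_im, ofReal_re, ofReal_im]
      ring
  push_cast
  have h3 : u * ((Dl u w : ℂ)⁻¹ * ((((starRingEnd ℂ w) * z).im : ℝ) : ℂ))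
      - w * ((Dl u w : ℂ)⁻¹ * ((((starRingEnd ℂ u) * z).im : ℝ) : ℂ))
      = (Dl u w : ℂ)⁻¹ * (u * ((((starRingEnd ℂ w) * z).im : ℝ) : ℂ)
        - w * ((((starRingEnd ℂ u) * z).im : ℝ) : ℂ)) := by ring
  rw [h3, h2, ← mul_assoc, inv_mul_cancel₀ h1, one_mul]

theorem abs_phx_le (z : ℂ) : |phx u w z| ≤ |Dl u w|⁻¹ * (‖w‖ * ‖z‖) := by
  rw [phx_apply, abs_mul, abs_inv]
  refine mul_le_mul_of_nonneg_left ?_ (by positivity)
  refine (Complex.abs_im_le_norm _).trans ?_
  rw [norm_mul, RCLike.norm_conj]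

theorem abs_phy_le (z : ℂ) : |phy u w z| ≤ |Dl u w|⁻¹ * (‖u‖ * ‖z‖) := by
  rw [phy_apply, abs_mul, abs_inv]
  refine mul_le_mul_of_nonneg_left ?_ (by positivity)
  refine (Complex.abs_im_le_norm _).trans ?_
  rw [norm_mul, RCLike.norm_conj]

/-- the convex set `{(x, y) : |u x - w y| ≤ δ}` -/
def EE (u w : ℂ) (δ x y : ℝ) : Prop := ‖u * x - w * y‖ ≤ δ

theorem EE_convex {δ x₁ y₁ x₂ y₂ s t : ℝ} (h1 : EE u w δ x₁ y₁) (h2 : EE u w δ x₂ y₂)
    (hs : 0 ≤ s) (ht : 0 ≤ t) (hst : s + t = 1) :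
    EE u w δ (s * x₁ + t * x₂) (s * y₁ + t * y₂) := by
  unfold EE at *
  have h3 : u * ((s * x₁ + t * x₂ : ℝ) : ℂ) - w * ((s * y₁ + t * y₂ : ℝ) : ℂ)
      = (s : ℂ) * (u * x₁ - w * y₁) + (t : ℂ) * (u * x₂ - w * y₂) := by
    push_cast; ring
  rw [h3]
  refine (norm_add_le _ _).trans ?_
  rw [norm_mul, norm_mul, Complex.norm_real, Complex.norm_real, Real.norm_eq_abs,
    Real.norm_eq_abs, abs_of_nonneg hs, abs_of_nonneg ht]
  have h4 := mul_le_mul_of_nonneg_left h1 hs
  have h5 := mul_le_mul_of_nonneg_left h2 ht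
  have h6 : s * δ + t * δ = δ := by rw [← add_mul, hst, one_mul]
  linarith

theorem EE_between {δ x y₁ y₂ y : ℝ} (h1 : EE u w δ x y₁) (h2 : EE u w δ x y₂) (h3 : y₁ ≤ y)
    (h4 : y ≤ y₂) : EE u w δ x y := by
  rcases h3.eq_or_lt with rfl | h3'
  · exact h1
  have h5 : 0 < y₂ - y₁ := by linarith
  have h6 := EE_convex h1 h2 (s := (y₂ - y) / (y₂ - y₁)) (t := (y - y₁) / (y₂ - y₁))
    (div_nonneg (by linarith) h5.le) (div_nonneg (by linarith) h5.le) (by
      rw [← add_div]; exact (div_eq_one_iff_eq h5.ne').2 (by ring))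
  have h7 : (y₂ - y) / (y₂ - y₁) * x + (y - y₁) / (y₂ - y₁) * x = x := by
    field_simp; ring
  have h8 : (y₂ - y) / (y₂ - y₁) * y₁ + (y - y₁) / (y₂ - y₁) * y₂ = y := by
    field_simp; ring
  rwa [h7, h8] at h6

theorem ordConnected_up {δ q : ℝ} : ({x | ∃ y, EE u w δ x y ∧ q ≤ y} : Set ℝ).OrdConnected := by
  rw [Set.ordConnected_iff]
  rintro x₁ ⟨y₁, h1, h1'⟩ x₂ ⟨y₂, h2, h2'⟩ h12 x ⟨hx1, hx2⟩
  rcases hx1.eq_or_lt with rfl | hx1'
  · exact ⟨y₁, h1, h1'⟩
  have h5 : 0 < x₂ - x₁ := by linarith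
  have hs : 0 ≤ (x₂ - x) / (x₂ - x₁) := div_nonneg (by linarith) h5.le
  have ht : 0 ≤ (x - x₁) / (x₂ - x₁) := div_nonneg (by linarith) h5.le
  have hst : (x₂ - x) / (x₂ - x₁) + (x - x₁) / (x₂ - x₁) = 1 := by
    rw [← add_div]; exact (div_eq_one_iff_eq h5.ne').2 (by ring)
  have h6 := EE_convex h1 h2 hs ht hst
  have h8 : (x₂ - x) / (x₂ - x₁) * x₁ + (x - x₁) / (x₂ - x₁) * x₂ = x := by
    field_simp; ring
  rw [h8] at h6
  refine ⟨_, h6, ?_⟩
  have h9 := mul_le_mul_of_nonneg_left h1' hs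
  have h10 := mul_le_mul_of_nonneg_left h2' ht
  have h11 : (x₂ - x) / (x₂ - x₁) * q + (x - x₁) / (x₂ - x₁) * q = q := by
    rw [← add_mul, hst, one_mul]
  linarith

theorem ordConnected_down {δ p : ℝ} : ({x | ∃ y, EE u w δ x y ∧ y ≤ p} : Set ℝ).OrdConnected := by
  rw [Set.ordConnected_iff]
  rintro x₁ ⟨y₁, h1, h1'⟩ x₂ ⟨y₂, h2, h2'⟩ h12 x ⟨hx1, hx2⟩
  rcases hx1.eq_or_lt with rfl | hx1'
  · exact ⟨y₁, h1, h1'⟩
  have h5 : 0 < x₂ - x₁ := by linarith
  have hs : 0 ≤ (x₂ - x) / (x₂ - x₁) := div_nonneg (by linarith) h5.le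
  have ht : 0 ≤ (x - x₁) / (x₂ - x₁) := div_nonneg (by linarith) h5.le
  have hst : (x₂ - x) / (x₂ - x₁) + (x - x₁) / (x₂ - x₁) = 1 := by
    rw [← add_div]; exact (div_eq_one_iff_eq h5.ne').2 (by ring)
  have h6 := EE_convex h1 h2 hs ht hst
  have h8 : (x₂ - x) / (x₂ - x₁) * x₁ + (x - x₁) / (x₂ - x₁) * x₂ = x := by
    field_simp; ring
  rw [h8] at h6
  refine ⟨_, h6, ?_⟩
  have h9 := mul_le_mul_of_nonneg_left h1' hs
  have h10 := mul_le_mul_of_nonneg_left h2' ht
  have h11 : (x₂ - x) / (x₂ - x₁) * p + (x - x₁) / (x₂ - x₁) * p = p := by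
    rw [← add_mul, hst, one_mul]
  linarith

theorem EE_bound_x (hD : Dl u w ≠ 0) {δ x y : ℝ} (h : EE u w δ x y) :
    |x| ≤ |Dl u w|⁻¹ * (‖w‖ * δ) := by
  have h1 := abs_phx_le (u := u) (w := w) (u * x - w * y)
  rw [phx_val hD] at h1
  refine h1.trans ?_
  unfold EE at h
  gcongr

theorem EE_bound_y (hD : Dl u w ≠ 0) {δ x y : ℝ} (h : EE u w δ x y) :
    |y| ≤ |Dl u w|⁻¹ * (‖u‖ * δ) := by
  have h1 := abs_phy_le (u := u) (w := w) (u * x - w * y)
  rw [phy_val hD] at h1
  refine h1.trans ?_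
  unfold EE at h
  gcongr

end coord

/-- thresholds above an interval -/
theorem exists_thr_above {U : Set ℝ} (hU : U.OrdConnected) {x₀ : ℝ} (hx₀ : x₀ ∈ U) {M : ℝ}
    (hM : ∀ x ∈ U, x ≤ M) {h : Fin n → ℝ} {G : Finset (Fin n)}
    (hG : ∀ i ∈ G, h i ∉ U ∧ x₀ < h i) :
    ∃ t, (∀ i ∈ G, t ≤ h i) ∧ ∀ x ∈ U, x < t := by
  rcases G.eq_empty_or_nonempty with rfl | hne
  · exact ⟨M + 1, by simp, fun x hx => by linarith [hM x hx]⟩
  · obtain ⟨i, hi, hmin⟩ := G.exists_min_image h hne
    refine ⟨h i, hmin, fun x hx => ?_⟩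
    by_contra hle
    rw [not_lt] at hle
    exact (hG i hi).1 (hU.out hx₀ hx ⟨(hG i hi).2.le, hle⟩)

/-- thresholds below an interval -/
theorem exists_thr_below {U : Set ℝ} (hU : U.OrdConnected) {x₀ : ℝ} (hx₀ : x₀ ∈ U) {M : ℝ}
    (hM : ∀ x ∈ U, -M ≤ x) {h : Fin n → ℝ} {G : Finset (Fin n)}
    (hG : ∀ i ∈ G, h i ∉ U ∧ h i < x₀) :
    ∃ t, (∀ i ∈ G, h i ≤ t) ∧ ∀ x ∈ U, t < x := by
  rcases G.eq_empty_or_nonempty with rfl | hne
  · exact ⟨-M - 1, by simp, fun x hx => by linarith [hM x hx]⟩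
  · obtain ⟨i, hi, hmax⟩ := G.exists_max_image h hne
    refine ⟨h i, hmax, fun x hx => ?_⟩
    by_contra hle
    rw [not_lt] at hle
    exact (hG i hi).1 (hU.out hx hx₀ ⟨hle, (hG i hi).2.le⟩)

section main

variable (hn : finrank ℂ V = n) (e f : OrthonormalBasis (Fin n) ℂ V) {H K : V →ₗ[ℂ] V}
  {h k : Fin n → ℝ} (heH : ∀ i, H (e i) = (h i : ℂ) • e i) (hfK : ∀ j, K (f j) = (k j : ℂ) • f j)
  {u w : ℂ} (hD : Dl u w ≠ 0) {δ : ℝ} (hδ : 0 < δ)
  (hT : ∀ v, v ≠ 0 → ‖(u • H - w • K) v‖ < δ * ‖v‖)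

include hn heH hfK hD hδ hT in
/-- Cross-shaped obstructions to a matching do not exist. -/
theorem cross_le {I JT JB : Finset (Fin n)} {p q : ℝ} (hJT : ∀ j ∈ JT, q ≤ k j)
    (hJB : ∀ j ∈ JB, k j ≤ p) (hpq : p < q)
    (hU : ({x | ∃ y, EE u w δ x y ∧ (q ≤ y ∨ y ≤ p)} : Set ℝ).OrdConnected)
    (hUne : ({x | ∃ y, EE u w δ x y ∧ (q ≤ y ∨ y ≤ p)} : Set ℝ).Nonempty)
    (hI : ∀ i ∈ I, h i ∉ ({x | ∃ y, EE u w δ x y ∧ (q ≤ y ∨ y ≤ p)} : Set ℝ)) :
    I.card + JT.card + JB.card ≤ n := by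
  classical
  set U : Set ℝ := {x | ∃ y, EE u w δ x y ∧ (q ≤ y ∨ y ≤ p)} with hUdef
  obtain ⟨x₀, hx₀⟩ := hUne
  set M : ℝ := |Dl u w|⁻¹ * (‖w‖ * δ) with hM
  have hMU : ∀ x ∈ U, |x| ≤ M := by
    rintro x ⟨y, hy, -⟩
    exact EE_bound_x hD hy
  set IR := I.filter fun i => x₀ < h i with hIR
  set IL := I.filter fun i => h i < x₀ with hIL
  have hIcard : I.card = IR.card + IL.card := by
    rw [← Finset.card_union_of_disjoint]
    · congr 1
      ext i
      simp only [hIR, hIL, mem_union, mem_filter]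
      constructor
      · intro hi
        rcases lt_trichotomy x₀ (h i) with h1 | h1 | h1
        · exact Or.inl ⟨hi, h1⟩
        · exact absurd (h1 ▸ hx₀) (hI i hi)
        · exact Or.inr ⟨hi, h1⟩
      · rintro (h1 | h1)
        · exact h1.1
        · exact h1.1
    · rw [Finset.disjoint_left]
      intro i h1 h2
      rw [hIR, mem_filter] at h1
      rw [hIL, mem_filter] at h2
      linarith [h1.2, h2.2]
  obtain ⟨tR, htR1, htR2⟩ := exists_thr_above (h := h) (G := IR) hU hx₀ (M := M)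
    (fun x hx => (le_abs_self x).trans (hMU x hx))
    (fun i hi => ⟨hI i (mem_filter.1 hi).1, (mem_filter.1 hi).2⟩)
  obtain ⟨tL, htL1, htL2⟩ := exists_thr_below (h := h) (G := IL) hU hx₀ (M := M)
    (fun x hx => (abs_le.1 (hMU x hx)).1)
    (fun i hi => ⟨hI i (mem_filter.1 hi).1, (mem_filter.1 hi).2⟩)
  -- the caps
  set T : V →ₗ[ℂ] V := ((δ⁻¹ : ℝ) : ℂ) • (u • H - w • K) with hTdef
  have hT' : ∀ v, v ≠ 0 → ‖T v‖ < ‖v‖ := by
    intro v hv
    rw [hTdef, LinearMap.smul_apply, norm_smul, Complex.norm_real, Real.norm_eq_abs,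
      abs_of_pos (inv_pos.2 hδ), inv_mul_lt_iff₀ hδ]
    exact hT v hv
  have hval : ∀ y, inner ℂ y (T y) = ((δ⁻¹ : ℝ) : ℂ) *
      (u * (((inner ℂ y (H y)).re : ℝ) : ℂ) - w * (((inner ℂ y (K y)).re : ℝ) : ℂ)) := by
    intro y
    rw [hTdef, LinearMap.smul_apply, inner_smul_right, LinearMap.sub_apply, LinearMap.smul_apply,
      LinearMap.smul_apply, inner_sub_right, inner_smul_right, inner_smul_right,
      inner_quad e heH, inner_quad f hfK, Complex.ofReal_re, Complex.ofReal_re]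
  have hx : ∀ y, phx u w (inner ℂ y (T y)) = δ⁻¹ * (inner ℂ y (H y)).re := by
    intro y
    rw [hval, ← Complex.real_smul, map_smul, phx_val hD, smul_eq_mul]
  have hy : ∀ y, phy u w (inner ℂ y (T y)) = δ⁻¹ * (inner ℂ y (K y)).re := by
    intro y
    rw [hval, ← Complex.real_smul, map_smul, phy_val hD, smul_eq_mul]
  -- points of the unit disc
  have hz : ∀ z : ℂ, ‖z‖ ≤ 1 → EE u w δ (δ * phx u w z) (δ * phy u w z) := by
    intro z hz1
    unfold EE
    have h1 : u * ((δ * phx u w z : ℝ) : ℂ) - w * ((δ * phy u w z : ℝ) : ℂ) = (δ : ℂ) * z := by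
      conv_rhs => rw [← ph_decomp hD z]
      push_cast; ring
    rw [h1, norm_mul, Complex.norm_real, Real.norm_eq_abs, abs_of_pos hδ]
    nlinarith
  have key := sum_finrank_le (ι := Fin 4) hn hT' ![phx u w, -phx u w, phy u w, -phy u w]
    ![δ⁻¹ * tR, -(δ⁻¹ * tL), δ⁻¹ * q, -(δ⁻¹ * p)]
    ![spanOf e IR, spanOf e IL, spanOf f JT, spanOf f JB] ?_ ?_
  · rw [Fin.sum_univ_four] at key
    have key' : finrank ℂ (spanOf e IR) + finrank ℂ (spanOf e IL) + finrank ℂ (spanOf f JT) +
      finrank ℂ (spanOf f JB) ≤ n := key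
    rw [finrank_spanOf, finrank_spanOf, finrank_spanOf, finrank_spanOf] at key'
    omega
  · -- disjointness
    have hδ' : 0 < δ⁻¹ := inv_pos.2 hδ
    have aux : ∀ {a b : ℝ}, δ⁻¹ * a ≤ b → a ≤ δ * b := by
      intro a b hab
      have := mul_le_mul_of_nonneg_left hab hδ.le
      rwa [← mul_assoc, mul_inv_cancel₀ hδ.ne', one_mul] at this
    have aux2 : ∀ {a b : ℝ}, -(δ⁻¹ * a) ≤ -b → δ * b ≤ a := by
      intro a b hab
      have := mul_le_mul_of_nonneg_left (neg_le_neg_iff.1 hab) hδ.le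
      rwa [← mul_assoc, mul_inv_cancel₀ hδ.ne', one_mul] at this
    -- the six pairs
    have hRL : ∀ z : ℂ, ‖z‖ ≤ 1 → δ⁻¹ * tR ≤ phx u w z → -(δ⁻¹ * tL) ≤ -phx u w z → False := by
      intro z _ h1 h2
      have := aux h1; have := aux2 h2
      linarith [htR2 x₀ hx₀, htL2 x₀ hx₀]
    have hTB : ∀ z : ℂ, ‖z‖ ≤ 1 → δ⁻¹ * q ≤ phy u w z → -(δ⁻¹ * p) ≤ -phy u w z → False := by
      intro z _ h1 h2
      have := aux h1; have := aux2 h2
      linarith
    have hRT : ∀ z : ℂ, ‖z‖ ≤ 1 → δ⁻¹ * tR ≤ phx u w z → δ⁻¹ * q ≤ phy u w z → False := by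
      intro z hz1 h1 h2
      have h3 : δ * phx u w z ∈ U := ⟨_, hz z hz1, Or.inl (aux h2)⟩
      linarith [htR2 _ h3, aux h1]
    have hRB : ∀ z : ℂ, ‖z‖ ≤ 1 → δ⁻¹ * tR ≤ phx u w z → -(δ⁻¹ * p) ≤ -phy u w z → False := by
      intro z hz1 h1 h2
      have h3 : δ * phx u w z ∈ U := ⟨_, hz z hz1, Or.inr (aux2 h2)⟩
      linarith [htR2 _ h3, aux h1]
    have hLT : ∀ z : ℂ, ‖z‖ ≤ 1 → -(δ⁻¹ * tL) ≤ -phx u w z → δ⁻¹ * q ≤ phy u w z → False := by
      intro z hz1 h1 h2
      have h3 : δ * phx u w z ∈ U := ⟨_, hz z hz1, Or.inl (aux h2)⟩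
      linarith [htL2 _ h3, aux2 h1]
    have hLB : ∀ z : ℂ, ‖z‖ ≤ 1 → -(δ⁻¹ * tL) ≤ -phx u w z → -(δ⁻¹ * p) ≤ -phy u w z → False := by
      intro z hz1 h1 h2
      have h3 : δ * phx u w z ∈ U := ⟨_, hz z hz1, Or.inr (aux2 h2)⟩
      linarith [htL2 _ h3, aux2 h1]
    intro i j hij z hz1 h1 h2
    fin_cases i <;> fin_cases j
    · exact hij rfl
    · exact hRL z hz1 h1 h2
    · exact hRT z hz1 h1 h2
    · exact hRB z hz1 h1 h2
    · exact hRL z hz1 h2 h1
    · exact hij rfl
    · exact hLT z hz1 h1 h2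
    · exact hLB z hz1 h1 h2
    · exact hRT z hz1 h2 h1
    · exact hLT z hz1 h2 h1
    · exact hij rfl
    · exact hTB z hz1 h1 h2
    · exact hRB z hz1 h2 h1
    · exact hLB z hz1 h2 h1
    · exact hTB z hz1 h2 h1
    · exact hij rfl
  · have hδ' : 0 < δ⁻¹ := inv_pos.2 hδ
    intro i y hyW
    fin_cases i
    · change δ⁻¹ * tR * ‖y‖ ^ 2 ≤ phx u w (inner ℂ y (T y))
      rw [hx, mul_assoc]
      exact mul_le_mul_of_nonneg_left (quad_ge e heH htR1 hyW) hδ'.le
    · change -(δ⁻¹ * tL) * ‖y‖ ^ 2 ≤ -phx u w (inner ℂ y (T y))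
      rw [hx]
      have := mul_le_mul_of_nonneg_left (quad_le e heH htL1 hyW) hδ'.le
      linarith
    · change δ⁻¹ * q * ‖y‖ ^ 2 ≤ phy u w (inner ℂ y (T y))
      rw [hy, mul_assoc]
      exact mul_le_mul_of_nonneg_left (quad_ge f hfK hJT hyW) hδ'.le
    · change -(δ⁻¹ * p) * ‖y‖ ^ 2 ≤ -phy u w (inner ℂ y (T y))
      rw [hy]
      have := mul_le_mul_of_nonneg_left (quad_le f hfK hJB hyW) hδ'.le
      linarith

include hn heH hfK hD hδ hT in
theorem point_e (i : Fin n) : EE u w δ (h i) (inner ℂ (e i) (K (e i))).re := by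
  have h1 : (inner ℂ (e i) ((u • H - w • K) (e i)) : ℂ)
      = u * (h i : ℂ) - w * (((inner ℂ (e i) (K (e i))).re : ℝ) : ℂ) := by
    rw [LinearMap.sub_apply, LinearMap.smul_apply, LinearMap.smul_apply, inner_sub_right,
      inner_smul_right, inner_smul_right, heH, inner_smul_right, inner_self_eq_norm_sq_to_K,
      e.orthonormal.1 i, inner_quad f hfK, Complex.ofReal_re]
    simp
  unfold EE
  rw [← h1]
  have h2 := norm_inner_le_norm (𝕜 := ℂ) (e i) ((u • H - w • K) (e i))
  have h3 : e i ≠ 0 := fun h0 => by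
    have := e.orthonormal.1 i
    rw [h0, norm_zero] at this
    exact zero_ne_one this
  have h4 := hT (e i) h3
  rw [e.orthonormal.1 i] at h2 h4
  linarith

include hn heH hfK hD hδ hT in
theorem point_f (j : Fin n) : EE u w δ (inner ℂ (f j) (H (f j))).re (k j) := by
  have h1 : (inner ℂ (f j) ((u • H - w • K) (f j)) : ℂ)
      = u * (((inner ℂ (f j) (H (f j))).re : ℝ) : ℂ) - w * (k j : ℂ) := by
    rw [LinearMap.sub_apply, LinearMap.smul_apply, LinearMap.smul_apply, inner_sub_right,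
      inner_smul_right, inner_smul_right, hfK, inner_smul_right, inner_self_eq_norm_sq_to_K,
      f.orthonormal.1 j, inner_quad e heH, Complex.ofReal_re]
    simp
  unfold EE
  rw [← h1]
  have h2 := norm_inner_le_norm (𝕜 := ℂ) (f j) ((u • H - w • K) (f j))
  have h3 : f j ≠ 0 := fun h0 => by
    have := f.orthonormal.1 j
    rw [h0, norm_zero] at this
    exact zero_ne_one this
  have h4 := hT (f j) h3
  rw [f.orthonormal.1 j] at h2 h4
  linarith

open Classical in
include hn heH hfK hD hδ hT in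
/-- Hall's condition. -/
theorem hall (S : Finset (Fin n)) :
    S.card ≤ (univ.filter fun j => ∃ i ∈ S, EE u w δ (h i) (k j)).card := by
  induction S using Finset.strongInduction with
  | H S ih =>
    by_contra hlt
    rw [not_le] at hlt
    set NS := univ.filter fun j => ∃ i ∈ S, EE u w δ (h i) (k j) with hNS
    have hSne : S.Nonempty := by
      rw [← Finset.card_pos]; omega
    obtain ⟨i₀, hi₀⟩ := hSne
    set κ : Fin n → ℝ := fun i => (inner ℂ (e i) (K (e i))).re with hκ
    have hκE : ∀ i, EE u w δ (h i) (κ i) := point_e hn e f heH hfK hD hδ hT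
    have hNSn : ∀ j, j ∉ NS → ∀ i ∈ S, ¬ EE u w δ (h i) (k j) := by
      intro j hj i hi hE
      apply hj
      rw [hNS, mem_filter]
      exact ⟨mem_univ j, i, hi, hE⟩
    -- sides
    have side : ∀ j, j ∉ NS → (∀ i ∈ S, κ i < k j) ∨ (∀ i ∈ S, k j < κ i) := by
      intro j hj
      set Sa := S.filter fun i => κ i < k j with hSa
      set Sb := S.filter fun i => k j < κ i with hSb
      have hne : ∀ i ∈ S, κ i ≠ k j := by
        intro i hi hEq
        exact hNSn j hj i hi (hEq ▸ hκE i)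
      rcases Sb.eq_empty_or_nonempty with h1 | ⟨ib, hib⟩
      · left
        intro i hi
        rcases lt_or_gt_of_ne (hne i hi) with h2 | h2
        · exact h2
        · exfalso
          have : i ∈ Sb := mem_filter.2 ⟨hi, h2⟩
          rw [h1] at this
          exact absurd this (notMem_empty i)
      rcases Sa.eq_empty_or_nonempty with h1 | ⟨ia, hia⟩
      · right
        intro i hi
        rcases lt_or_gt_of_ne (hne i hi) with h2 | h2
        · exfalso
          have : i ∈ Sa := mem_filter.2 ⟨hi, h2⟩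
          rw [h1] at this
          exact absurd this (notMem_empty i)
        · exact h2
      exfalso
      have hSaS : Sa ⊂ S := by
        refine (Finset.ssubset_iff_of_subset (filter_subset _ _)).2 ⟨ib, (mem_filter.1 hib).1, ?_⟩
        intro h1
        linarith [(mem_filter.1 h1).2, (mem_filter.1 hib).2]
      have hSbS : Sb ⊂ S := by
        refine (Finset.ssubset_iff_of_subset (filter_subset _ _)).2 ⟨ia, (mem_filter.1 hia).1, ?_⟩
        intro h1
        linarith [(mem_filter.1 h1).2, (mem_filter.1 hia).2]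
      have h1 := ih Sa hSaS
      have h2 := ih Sb hSbS
      have h3 : Disjoint (univ.filter fun j => ∃ i ∈ Sa, EE u w δ (h i) (k j))
          (univ.filter fun j => ∃ i ∈ Sb, EE u w δ (h i) (k j)) := by
        rw [Finset.disjoint_left]
        intro j' hj1 hj2
        obtain ⟨-, i1, hi1, hE1⟩ := mem_filter.1 hj1
        obtain ⟨-, i2, hi2, hE2⟩ := mem_filter.1 hj2
        have hk1 : k j' < k j := by
          by_contra hle
          rw [not_lt] at hle
          exact hNSn j hj i1 (mem_filter.1 hi1).1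
            (EE_between (hκE i1) hE1 (mem_filter.1 hi1).2.le hle)
        have hk2 : k j < k j' := by
          by_contra hle
          rw [not_lt] at hle
          exact hNSn j hj i2 (mem_filter.1 hi2).1
            (EE_between hE2 (hκE i2) hle (mem_filter.1 hi2).2.le)
        linarith
      have h4 : (univ.filter fun j => ∃ i ∈ Sa, EE u w δ (h i) (k j)) ∪
          (univ.filter fun j => ∃ i ∈ Sb, EE u w δ (h i) (k j)) ⊆ NS := by
        intro j' hj'
        rw [mem_union, mem_filter, mem_filter] at hj'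
        rw [hNS, mem_filter]
        rcases hj' with ⟨_, i, hi, hE⟩ | ⟨_, i, hi, hE⟩
        · exact ⟨mem_univ _, i, (mem_filter.1 hi).1, hE⟩
        · exact ⟨mem_univ _, i, (mem_filter.1 hi).1, hE⟩
      have h5 := Finset.card_le_card h4
      rw [Finset.card_union_of_disjoint h3] at h5
      have h6 : S.card = Sa.card + Sb.card := by
        rw [← Finset.card_union_of_disjoint]
        · congr 1
          ext i
          rw [mem_union, hSa, hSb, mem_filter, mem_filter]
          constructor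
          · intro hi
            rcases lt_or_gt_of_ne (hne i hi) with h2 | h2
            · exact Or.inl ⟨hi, h2⟩
            · exact Or.inr ⟨hi, h2⟩
          · rintro (h | h)
            · exact h.1
            · exact h.1
        · rw [Finset.disjoint_left]
          intro i h1 h2
          linarith [(mem_filter.1 h1).2, (mem_filter.1 h2).2]
      omega
    -- the two groups
    set JT := univ.filter fun j => j ∉ NS ∧ κ i₀ < k j with hJT
    set JB := univ.filter fun j => j ∉ NS ∧ k j < κ i₀ with hJB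
    have hcard : n < S.card + JT.card + JB.card := by
      have h1 : NSᶜ.card = JT.card + JB.card := by
        rw [← Finset.card_union_of_disjoint]
        · congr 1
          ext j
          constructor
          · intro hj
            have hj' : j ∉ NS := mem_compl.1 hj
            rcases side j hj' with h2 | h2
            · exact mem_union.2 (Or.inl (mem_filter.2 ⟨mem_univ _, hj', h2 i₀ hi₀⟩))
            · exact mem_union.2 (Or.inr (mem_filter.2 ⟨mem_univ _, hj', h2 i₀ hi₀⟩))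
          · intro hj
            rcases mem_union.1 hj with h2 | h2
            · exact mem_compl.2 (mem_filter.1 h2).2.1
            · exact mem_compl.2 (mem_filter.1 h2).2.1
        · rw [Finset.disjoint_left]
          intro j h1 h2
          linarith [(mem_filter.1 h1).2.2, (mem_filter.1 h2).2.2]
      rw [Finset.card_compl, Fintype.card_fin] at h1
      have h2 : NS.card ≤ n := by simpa using Finset.card_le_univ NS
      omega
    have hTside : ∀ j ∈ JT, ∀ i ∈ S, ∀ y, EE u w δ (h i) y → y < k j := by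
      intro j hj i hi y hE
      obtain ⟨-, hj1, hj2⟩ := mem_filter.1 hj
      by_contra hle
      rw [not_lt] at hle
      rcases side j hj1 with h1 | h1
      · exact hNSn j hj1 i hi (EE_between (hκE i) hE (h1 i hi).le hle)
      · linarith [h1 i₀ hi₀]
    have hBside : ∀ j ∈ JB, ∀ i ∈ S, ∀ y, EE u w δ (h i) y → k j < y := by
      intro j hj i hi y hE
      obtain ⟨-, hj1, hj2⟩ := mem_filter.1 hj
      by_contra hle
      rw [not_lt] at hle
      rcases side j hj1 with h1 | h1
      · linarith [h1 i₀ hi₀]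
      · exact hNSn j hj1 i hi (EE_between hE (hκE i) hle (h1 i hi).le)
    -- thresholds
    set M : ℝ := |Dl u w|⁻¹ * (‖u‖ * δ) with hM
    have hMb : ∀ x y, EE u w δ x y → |y| ≤ M := fun x y hE => EE_bound_y hD hE
    obtain ⟨q, hq1, hq2, hq3⟩ : ∃ q, (∀ j ∈ JT, q ≤ k j) ∧
        (∀ i ∈ S, ∀ y, EE u w δ (h i) y → y < q) ∧
        (JT.Nonempty → ∃ x y, EE u w δ x y ∧ q ≤ y) := by
      rcases JT.eq_empty_or_nonempty with h1 | h1
      · refine ⟨M + 1, by simp [h1], ?_, ?_⟩
        · intro i _ y hE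
          linarith [(abs_le.1 (hMb _ _ hE)).2]
        · intro h2
          rw [h1] at h2
          exact absurd h2 not_nonempty_empty
      · obtain ⟨j, hj, hmin⟩ := JT.exists_min_image k h1
        exact ⟨k j, hmin, fun i hi y hE => hTside j hj i hi y hE,
          fun _ => ⟨_, k j, point_f hn e f heH hfK hD hδ hT j, le_rfl⟩⟩
    obtain ⟨p, hp1, hp2, hp3⟩ : ∃ p, (∀ j ∈ JB, k j ≤ p) ∧
        (∀ i ∈ S, ∀ y, EE u w δ (h i) y → p < y) ∧
        (JB.Nonempty → ∃ x y, EE u w δ x y ∧ y ≤ p) := by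
      rcases JB.eq_empty_or_nonempty with h1 | h1
      · refine ⟨-M - 1, by simp [h1], ?_, ?_⟩
        · intro i _ y hE
          linarith [(abs_le.1 (hMb _ _ hE)).1]
        · intro h2
          rw [h1] at h2
          exact absurd h2 not_nonempty_empty
      · obtain ⟨j, hj, hmax⟩ := JB.exists_max_image k h1
        exact ⟨k j, hmax, fun i hi y hE => hBside j hj i hi y hE,
          fun _ => ⟨_, k j, point_f hn e f heH hfK hD hδ hT j, le_rfl⟩⟩
    have hκq : κ i₀ < q := hq2 i₀ hi₀ _ (hκE i₀)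
    have hκp : p < κ i₀ := hp2 i₀ hi₀ _ (hκE i₀)
    have hκM := abs_le.1 (hMb _ _ (hκE i₀))
    set UT : Set ℝ := {x | ∃ y, EE u w δ x y ∧ q ≤ y} with hUT
    set UB : Set ℝ := {x | ∃ y, EE u w δ x y ∧ y ≤ p} with hUB
    have hUTo : UT.OrdConnected := ordConnected_up
    have hUBo : UB.OrdConnected := ordConnected_down
    have hSUT : ∀ i ∈ S, h i ∉ UT := by
      rintro i hi ⟨y, hE, hy⟩
      linarith [hq2 i hi y hE]
    have hSUB : ∀ i ∈ S, h i ∉ UB := by
      rintro i hi ⟨y, hE, hy⟩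
      linarith [hp2 i hi y hE]
    have hUeq : ({x | ∃ y, EE u w δ x y ∧ (q ≤ y ∨ y ≤ p)} : Set ℝ) = UT ∪ UB := by
      ext x
      constructor
      · rintro ⟨y, hE, hy | hy⟩
        · exact Or.inl ⟨y, hE, hy⟩
        · exact Or.inr ⟨y, hE, hy⟩
      · rintro (⟨y, hE, hy⟩ | ⟨y, hE, hy⟩)
        · exact ⟨y, hE, Or.inl hy⟩
        · exact ⟨y, hE, Or.inr hy⟩
    -- the union case
    have hunion : (UT ∪ UB).OrdConnected → (UT ∪ UB).Nonempty → False := by
      intro h1 h2
      have h3 := cross_le hn e f heH hfK hD hδ hT (I := S) hq1 hp1 (hκp.trans hκq)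
        (by rw [hUeq]; exact h1) (by rw [hUeq]; exact h2) (by
          intro i hi
          rw [hUeq]
          rintro (h4 | h4)
          · exact hSUT i hi h4
          · exact hSUB i hi h4)
      omega
    by_cases hTne : UT.Nonempty
    · by_cases hBne : UB.Nonempty
      · by_cases hint : (UT ∩ UB).Nonempty
        · refine hunion ?_ (hTne.mono Set.subset_union_left)
          obtain ⟨x₁, hx₁, hx₁'⟩ := hint
          have : IsPreconnected (UT ∪ UB) :=
            (hUTo.isPreconnected).union x₁ hx₁ hx₁' hUBo.isPreconnected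
          exact this.ordConnected
        · -- disjoint nonempty intervals: one-sided obstruction
          set PT := univ.filter fun i => h i ∈ UT with hPT
          set PB := univ.filter fun i => h i ∈ UB with hPB
          have hdis1 : Disjoint PT PB := by
            rw [Finset.disjoint_left]
            intro i h1 h2
            exact hint ⟨h i, (mem_filter.1 h1).2, (mem_filter.1 h2).2⟩
          have hdis2 : Disjoint S (PT ∪ PB) := by
            rw [Finset.disjoint_left]
            intro i h1 h2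
            rcases mem_union.1 h2 with h3 | h3
            · exact hSUT i h1 (mem_filter.1 h3).2
            · exact hSUB i h1 (mem_filter.1 h3).2
          have h1 : S.card + (PT.card + PB.card) ≤ n := by
            rw [← Finset.card_union_of_disjoint hdis1, ← Finset.card_union_of_disjoint hdis2]
            simpa using Finset.card_le_univ (S ∪ (PT ∪ PB))
          have h2 : PT.card < JT.card ∨ PB.card < JB.card := by omega
          rcases h2 with h2 | h2
          · have hUeq' : ({x | ∃ y, EE u w δ x y ∧ (q ≤ y ∨ y ≤ -M - 1)} : Set ℝ) = UT := by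
              ext x
              constructor
              · rintro ⟨y, hE, hy | hy⟩
                · exact ⟨y, hE, hy⟩
                · linarith [(abs_le.1 (hMb _ _ hE)).1]
              · rintro ⟨y, hE, hy⟩
                exact ⟨y, hE, Or.inl hy⟩
            have h3 := cross_le hn e f heH hfK hD hδ hT (I := PTᶜ) (JT := JT) (JB := ∅)
              (p := -M - 1) (q := q) hq1 (by simp) (by linarith [hκM.1]) (by
                rw [hUeq']; exact hUTo) (by rw [hUeq']; exact hTne) (by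
                intro i hi
                rw [hUeq']
                intro h4
                exact (mem_compl.1 hi) (mem_filter.2 ⟨mem_univ _, h4⟩))
            rw [Finset.card_compl, Fintype.card_fin, Finset.card_empty] at h3
            have h4 : PT.card ≤ n := by simpa using Finset.card_le_univ PT
            omega
          · have hUeq' : ({x | ∃ y, EE u w δ x y ∧ (M + 1 ≤ y ∨ y ≤ p)} : Set ℝ) = UB := by
              ext x
              constructor
              · rintro ⟨y, hE, hy | hy⟩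
                · linarith [(abs_le.1 (hMb _ _ hE)).2]
                · exact ⟨y, hE, hy⟩
              · rintro ⟨y, hE, hy⟩
                exact ⟨y, hE, Or.inr hy⟩
            have h3 := cross_le hn e f heH hfK hD hδ hT (I := PBᶜ) (JT := ∅) (JB := JB)
              (p := p) (q := M + 1) (by simp) hp1 (by linarith [hκM.2]) (by
                rw [hUeq']; exact hUBo) (by rw [hUeq']; exact hBne) (by
                intro i hi
                rw [hUeq']
                intro h4
                exact (mem_compl.1 hi) (mem_filter.2 ⟨mem_univ _, h4⟩))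
            rw [Finset.card_compl, Fintype.card_fin, Finset.card_empty] at h3
            have h4 : PB.card ≤ n := by simpa using Finset.card_le_univ PB
            omega
      · have : UB = ∅ := Set.not_nonempty_iff_eq_empty.1 hBne
        refine hunion ?_ (hTne.mono Set.subset_union_left)
        rw [this, Set.union_empty]
        exact hUTo
    · have hUT0 : UT = ∅ := Set.not_nonempty_iff_eq_empty.1 hTne
      by_cases hBne : UB.Nonempty
      · refine hunion ?_ (hBne.mono Set.subset_union_right)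
        rw [hUT0, Set.empty_union]
        exact hUBo
      · have h1 : JT = ∅ := by
          by_contra h2
          obtain ⟨x, y, hE, hy⟩ := hq3 (Finset.nonempty_iff_ne_empty.2 h2)
          exact hTne ⟨x, y, hE, hy⟩
        have h2 : JB = ∅ := by
          by_contra h2
          obtain ⟨x, y, hE, hy⟩ := hp3 (Finset.nonempty_iff_ne_empty.2 h2)
          exact hBne ⟨x, y, hE, hy⟩
        rw [h1, h2, Finset.card_empty] at hcard
        have h3 : S.card ≤ n := by simpa using Finset.card_le_univ S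
        omega

include hn heH hfK hD hδ hT in
theorem matching_strict : ∃ σ : Equiv.Perm (Fin n), ∀ i, ‖u * h i - w * k (σ i)‖ ≤ δ := by
  classical
  obtain ⟨g, hg1, hg2⟩ := (Fintype.all_card_le_filter_rel_iff_exists_injective
    (fun i j => EE u w δ (h i) (k j))).1 (fun S => by
      have := hall hn e f heH hfK hD hδ hT S
      convert this)
  refine ⟨Equiv.ofBijective g (Finite.injective_iff_bijective.1 hg1), fun i => hg2 i⟩

end main

/-- Matching for two operators `uH`, `wK` with `H`, `K` diagonal in orthonormal bases with real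
eigenvalues and `u`, `w` linearly independent over the reals. -/
theorem matching (hn : finrank ℂ V = n) (e f : OrthonormalBasis (Fin n) ℂ V) {H K : V →ₗ[ℂ] V}
    {h k : Fin n → ℝ} (heH : ∀ i, H (e i) = (h i : ℂ) • e i)
    (hfK : ∀ j, K (f j) = (k j : ℂ) • f j) {u w : ℂ} (hD : Dl u w ≠ 0) {δ : ℝ} (hδ : 0 ≤ δ)
    (hT : ∀ v, ‖(u • H - w • K) v‖ ≤ δ * ‖v‖) :
    ∃ σ : Equiv.Perm (Fin n), ∀ i, ‖u * h i - w * k (σ i)‖ ≤ δ := by
  classical
  by_contra hcon
  push Not at hcon
  choose bad hbad using hcon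
  -- the smallest violation
  obtain ⟨σ₀, -, hmin⟩ := Finset.exists_min_image (univ : Finset (Equiv.Perm (Fin n)))
    (fun σ => ‖u * h (bad σ) - w * k (σ (bad σ))‖) univ_nonempty
  set m := ‖u * h (bad σ₀) - w * k (σ₀ (bad σ₀))‖ with hm
  have hδm : δ < m := hbad σ₀
  obtain ⟨δ', h1, h2⟩ := exists_between hδm
  obtain ⟨σ, hσ⟩ := matching_strict (V := V) hn e f heH hfK hD (lt_of_le_of_lt hδ h1) (by
    intro v hv
    have h3 : 0 < ‖v‖ := norm_pos_iff.2 hv
    exact (hT v).trans_lt (mul_lt_mul_of_pos_right h1 h3))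
  have h4 := hmin σ (mem_univ σ)
  have h5 := hσ (bad σ)
  linarith

end Q78.SV
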